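import Pool.Agent.KS6_49.NilI.I
import Pool.Agent.KS6_49.NilI.J

/-!
# A `(k + 1)`-step interpolation set that is no finite union of `k`-step interpolation sets

The definitions are in `Pool.Agent.KS6_49.NilI.Defs`:

* `NilSys k`: a `k`-step nilsystem `(G / Γ, g)`: a Hausdorff, second countable real Lie group `G` of
  finite dimension, nilpotent of class at most `k`, a discrete cocompact subgroup `Γ` and `g ∈ G`;
* `Basic k φ`: `φ n = F (g ^ n • x)` for some such system, `x ∈ G / Γ`, `F` continuous;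
* `Nilseq k ψ`: `ψ` is a uniform limit on `{1, 2, …}` of basic `k`-step nilsequences;
* `Interp k A`: every function bounded on `A` agrees on `A` with a `k`-step nilsequence
  (`k`-step interpolation set; for `k = 1` the `I₀`-sets);
* `InterpLim k A`: the same with the sequences `n ↦ F (T ^ n x)`, `F` continuous on an inverse limit
  `(X, T)` of a sequence of `k`-step nilsystems.
-/

open Filter
open Pool.Agent.KS6_49.NilI

namespace Pool.Agent.Results.MP_1b26ca_an.NotFiniteUnion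

/-- **Main theorem.** Let `k` be a natural number and let `ω` tend to infinity (as slowly as we
like). There is a set `E` of positive integers with at most `ω N` elements in `{1, …, N}`, for every
`N`, such that

* the set of the powers `n ^ (k + 1)`, `n ∈ E`, is an `I₀`-set (a `1`-step interpolation set);
* `E` is a `(k + 1)`-step interpolation set, in both senses;
* for some function `f` with values in `[0, 1]`, no `r` `k`-step nilsequences `ψ 0, …, ψ (r - 1)`
  approximate `f` on `E` better than `r` constants do: for every `δ < 1 / (2 r)` there is `n ∈ E` with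
  `|f n - ψ i n| > δ` for all `i`; here `r ≥ 1` is arbitrary and `f` does not depend on `r`;
* `E` is not contained in a finite union of `k`-step interpolation sets (in either sense);
* for `1 ≤ j ≤ k` the set of the powers `n ^ j`, `n ∈ E`, is not contained in a finite union of
  `I₀`-sets. -/
theorem result (k : ℕ) (ω : ℕ → ℕ) (hω : Tendsto ω atTop atTop) :
    ∃ E : Set ℕ, (∀ n ∈ E, 1 ≤ n) ∧ (∀ N : ℕ, (E ∩ Set.Icc 1 N).encard ≤ ω N) ∧
      Interp 1 ((fun n : ℕ => n ^ (k + 1)) '' E) ∧ Interp (k + 1) E ∧ InterpLim (k + 1) E ∧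
      (∃ f : ℕ → ℝ, (∀ n, 0 ≤ f n ∧ f n ≤ 1) ∧ ∀ r : ℕ, 1 ≤ r → ∀ ψ : Fin r → ℕ → ℂ,
        (∀ i, Nilseq k (ψ i)) → ∀ δ : ℝ, δ < 1 / (2 * r) →
          ∃ n ∈ E, ∀ i, δ < ‖(f n : ℂ) - ψ i n‖) ∧
      (∀ (r : ℕ) (A : Fin r → Set ℕ), (∀ i, Interp k (A i) ∨ InterpLim k (A i)) →
        ¬ E ⊆ ⋃ i, A i) ∧
      ∀ j : ℕ, 1 ≤ j → j ≤ k → ∀ (r : ℕ) (A : Fin r → Set ℕ), (∀ i, Interp 1 (A i)) →
        ¬ (fun n : ℕ => n ^ j) '' E ⊆ ⋃ i, A i := by
  obtain ⟨g, hg, hsp⟩ := exists_sparse k ω hω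
  have pos := EG_pos (g := g) k
  obtain ⟨f, hf, key⟩ := no_cover k (ag g k) (ag_inj hg.injective k) pos
  -- finitely many functions with the cube property do not cover `f`
  have cover : ∀ (r : ℕ) (A : Fin r → Set ℕ),
      (∀ i, ∃ ψ : ℕ → ℂ, Det k ψ ∧ ∀ n ∈ A i, ψ n = f n) → ¬ EG g k ⊆ ⋃ i, A i := by
    intro r A hψ hE
    choose ψ hψ1 hψ2 using hψ
    rcases Nat.eq_zero_or_pos r with rfl | hr
    · have h1 : (∑ l, ag g k l 0) ∈ EG g k := ⟨fun _ => 0, rfl⟩
      obtain ⟨i, -⟩ := Set.mem_iUnion.1 (hE h1)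
      exact i.elim0
    · have hr0 : (0 : ℝ) < r := by exact_mod_cast hr
      obtain ⟨n, hn, h1⟩ := key r hr ψ hψ1 0 (by positivity)
      obtain ⟨i, hi⟩ := Set.mem_iUnion.1 (hE hn)
      have h2 := h1 i
      rw [hψ2 i n hi, sub_self, norm_zero] at h2
      exact lt_irrefl _ h2
  have hb : ∀ n, ‖(f n : ℂ)‖ ≤ 1 := by
    intro n
    rw [Complex.norm_real, Real.norm_of_nonneg (hf n).1]
    exact (hf n).2
  refine ⟨EG g k, pos, hsp, interp_pow_g hg.injective k, interp_g hg.injective k,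
    interpLim_g hg.injective k, ⟨f, hf, fun r hr ψ hψ δ hδ => key r hr ψ (fun i => (hψ i).det) δ hδ⟩,
    fun r A hA => cover r A fun i => ?_, fun j hj1 hjk r A hA hE => ?_⟩
  · rcases hA i with h | h
    · obtain ⟨ψ, h1, h2⟩ := h (fun n => (f n : ℂ)) ⟨1, fun n _ => hb n⟩
      exact ⟨ψ, h1.det, h2⟩
    · obtain ⟨L, x, F, h1, h2⟩ := h (fun n => (f n : ℂ)) ⟨1, fun n _ => hb n⟩
      exact ⟨fun n => F (L.T^[n] x), L.det x F h1, h2⟩
  · have hinj : Function.Injective fun n : ℕ => n ^ j := Nat.pow_left_injective (by omega)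
    refine cover r (fun i => (fun n : ℕ => n ^ j) ⁻¹' A i) (fun i => ?_) (fun n hn => ?_)
    · obtain ⟨ψ, h1, h2⟩ := hA i (fun m => (f (Function.invFun (fun n : ℕ => n ^ j) m) : ℂ))
        ⟨1, fun n _ => hb _⟩
      refine ⟨fun n => ψ (n ^ j), h1.det_pow hjk, fun n hn => ?_⟩
      exact (h2 _ hn).trans
        (congrArg (fun m => (f m : ℂ)) (Function.leftInverse_invFun hinj n))
    · obtain ⟨i, hi⟩ := Set.mem_iUnion.1 (hE ⟨n, hn, rfl⟩)
      exact Set.mem_iUnion.2 ⟨i, hi⟩

end Pool.Agent.Results.MP_1b26ca_an.NotFiniteUnion
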